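import Pool.Agent.LeoC.CountStmts

/-!
Squad LEOC, module INJ: the marks of an irreducible form and of its mirror image give different
forms (port of `Helper59_LeoK/Inj.lean`).
-/

set_option autoImplicit false

open NumberField NumberField.InfinitePlace NumberField.mixedEmbedding IsDedekindDomain Module
  MeasureTheory Filter Topology
open Pool.Agent.LeoK Pool.Agent.LeoG

open scoped Classical

namespace Pool.Agent.LeoC.H69

variable {k : Type} [Field k] [NumberField k]

/-- Translation into the fundamental domain. -/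
lemma exists_shift (x : MS k) : ∃ t : 𝓞 k, x + mixedEmbedding k (t : k) ∈ FD k := by
  have h1 : -(ZSpan.floor (latticeBasis k) x : MS k) ∈
      Submodule.span ℤ (Set.range (latticeBasis k)) :=
    Submodule.neg_mem _ (ZSpan.floor (latticeBasis k) x).2
  rw [mem_span_latticeBasis] at h1
  obtain ⟨t, ht⟩ := h1
  refine ⟨t, ?_⟩
  have ht' : mixedEmbedding k (t : k) = -(ZSpan.floor (latticeBasis k) x : MS k) := ht
  rw [ht', ← sub_eq_add_neg]
  exact ZSpan.fract_mem_fundamentalDomain (latticeBasis k) x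

section maps

variable {A B : Type} [CommRing A] [CommRing B] (φ : A →+* B)

lemma gact_zero (v : Q4 A) (x y z w : A) : gact v x y z w 0 = gval v x z := rfl

lemma gact_one_shift (v : Q4 A) (x y z w t : A) :
    gact v x (y + t * x) z (w + t * z) 1 = gact v x y z w 1 + 3 * t * gact v x y z w 0 := by
  simp only [gact, gval, Matrix.cons_val_one, Matrix.cons_val_zero]
  ring

lemma map_gval (v : Q4 A) (x y : A) : φ (gval v x y) = gval (fun i => φ (v i)) (φ x) (φ y) := by
  simp only [gval, map_add, map_mul, map_pow]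

lemma map_mm (v : Q4 A) : φ (mm v) = mm (fun i => φ (v i)) := by
  simp only [mm, dsc, map_neg, map_sub, map_add, map_mul, map_pow, map_ofNat]

lemma map_gact (v : Q4 A) (x y z w : A) (i : Fin 4) :
    φ (gact v x y z w i) = gact (fun j => φ (v j)) (φ x) (φ y) (φ z) (φ w) i := by
  fin_cases i
  · exact map_gval φ v _ _
  · simp [gact, map_ofNat]
  · simp [gact, map_ofNat]
  · exact map_gval φ v _ _

lemma gval_gact (v : Q4 A) (x y z w X Y : A) :
    gval v (x * X + y * Y) (z * X + w * Y) = gval (gact v x y z w) X Y := by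
  have e0 : gact v x y z w 0 = gval v x z := rfl
  have e1 : gact v x y z w 1 =
    3 * v 0 * x ^ 2 * y + v 1 * (x ^ 2 * w + 2 * x * y * z) + v 2 * (2 * x * z * w + y * z ^ 2) +
      3 * v 3 * z ^ 2 * w := rfl
  have e2 : gact v x y z w 2 =
    3 * v 0 * x * y ^ 2 + v 1 * (2 * x * y * w + y ^ 2 * z) + v 2 * (x * w ^ 2 + 2 * y * z * w) +
      3 * v 3 * z * w ^ 2 := rfl
  have e3 : gact v x y z w 3 = gval v y w := rfl
  rw [gval, gval, e0, e1, e2, e3]
  simp only [gval]
  ring

lemma mm_gact (v : Q4 A) (x y z w : A) : mm (gact v x y z w) = (x * w - y * z) ^ 6 * mm v := by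
  have e0 : gact v x y z w 0 = gval v x z := rfl
  have e1 : gact v x y z w 1 =
    3 * v 0 * x ^ 2 * y + v 1 * (x ^ 2 * w + 2 * x * y * z) + v 2 * (2 * x * z * w + y * z ^ 2) +
      3 * v 3 * z ^ 2 * w := rfl
  have e2 : gact v x y z w 2 =
    3 * v 0 * x * y ^ 2 + v 1 * (2 * x * y * w + y ^ 2 * z) + v 2 * (x * w ^ 2 + 2 * y * z * w) +
      3 * v 3 * z * w ^ 2 := rfl
  have e3 : gact v x y z w 3 = gval v y w := rfl
  rw [mm, mm, dsc, dsc, e0, e1, e2, e3]
  simp only [gval]
  ring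

lemma gact_mir (v : Q4 A) (x y z w : A) : gact (gmir v) x y z w = gact v (-x) (-y) z w := by
  funext i
  fin_cases i <;> simp [gact, gmir, gval] <;> ring

lemma mm_mir (v : Q4 A) : mm (gmir v) = mm v := by
  simp [mm, dsc, gmir]
  ring

lemma irr_mir (v : Q4 A) (h : GIrr v) : GIrr (gmir v) := by
  intro x y h0
  have h1 : gval v (-x) y = 0 := by
    rw [← h0]
    simp [gmir, gval]
    ring
  obtain ⟨h2, h3⟩ := h _ _ h1
  exact ⟨by simpa using h2, h3⟩

end maps

/-- A mark gives a normalised form. -/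
lemma mark_form (hka : HkaStmt) (evs : EvsStmt) (Φ : CFrame k) (T η : ℝ) (g : Q4 (𝓞 k))
    (hirr : GIrr g) (hm : mm g ≠ 0) (p : 𝓞 k × 𝓞 k) (hp : p ∈ Mks Φ T η g) :
    ∃ y w : 𝓞 k, p.1 * w - y * p.2 = 1 ∧ gact g p.1 y p.2 w ∈ Wset Φ T η (mm g) := by
  obtain ⟨X, Y⟩ := p
  obtain ⟨⟨a, b, hab⟩, hF, hT, hv⟩ := hp
  simp only at hab hF hT hv ⊢
  have hne : gval g X Y ≠ 0 := by
    intro h0
    obtain ⟨h1, h2⟩ := hirr X Y h0
    rw [h1, h2] at hab
    simp at hab
  obtain ⟨ev1, ev2, -, ev4, ev5, -⟩ := evs k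
  obtain ⟨t, ht⟩ := exists_shift (k := k)
    (em (gact g X (-b) Y a) 1 / (3 * em (gact g X (-b) Y a) 0) : MS k)
  have hdet : X * (a + t * Y) - (-b + t * X) * Y = 1 := by linear_combination hab
  have hmm : mm (gact g X (-b + t * X) Y (a + t * Y)) = mm g := by
    rw [mm_gact, hdet, one_pow, one_mul]
  obtain ⟨-, -, -, hk1, -, -⟩ := hka k g hm
  obtain ⟨-, -, -, -, -, hk2⟩ := hka k (gact g X (-b + t * X) Y (a + t * Y)) (by rw [hmm]; exact hm)
  have hsz : sz (em (gact g X (-b + t * X) Y (a + t * Y))) = hk g X Y := by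
    rw [hk2]
    funext v
    have h3 := hk1 X (-b + t * X) Y (a + t * Y) 1 0 v (by rw [hdet]; exact one_ne_zero)
    rw [hdet, mul_one, mul_zero, add_zero, mul_one, mul_zero, add_zero] at h3
    have h4 : v ((1 : 𝓞 k) : k) = 1 := by
      rw [show ((1 : 𝓞 k) : k) = 1 from rfl, map_one]
    rw [h4, mul_one] at h3
    exact h3
  refine ⟨-b + t * X, a + t * Y, hdet, hmm, hne, ?_, ?_, ?_, ?_⟩
  · have h5 : (em (gact g X (-b + t * X) Y (a + t * Y)) 1 /
        (3 * em (gact g X (-b + t * X) Y (a + t * Y)) 0) : MS k) =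
        em (gact g X (-b) Y a) 1 / (3 * em (gact g X (-b) Y a) 0) + mixedEmbedding k (t : k) := by
      apply ev5
      intro v
      have e3 : ev v (3 : MS k) = 3 := by
        have := ev4 v 3
        exact_mod_cast this
      have hA : ev v (em (gact g X (-b) Y a) 0) ≠ 0 := by
        show ev v (mixedEmbedding k ((gact g X (-b) Y a 0 : 𝓞 k) : k)) ≠ 0
        rw [ev1, gact_zero]
        intro h
        apply hne
        have := (map_eq_zero v.embedding).1 h
        exact_mod_cast this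
      have h6 : ev v (em (gact g X (-b + t * X) Y (a + t * Y)) 1) =
          ev v (em (gact g X (-b) Y a) 1) +
            3 * ev v (mixedEmbedding k (t : k)) * ev v (em (gact g X (-b) Y a) 0) := by
        show ev v (mixedEmbedding k ((gact g X (-b + t * X) Y (a + t * Y) 1 : 𝓞 k) : k)) =
          ev v (mixedEmbedding k ((gact g X (-b) Y a 1 : 𝓞 k) : k)) +
            3 * ev v (mixedEmbedding k (t : k)) *
              ev v (mixedEmbedding k ((gact g X (-b) Y a 0 : 𝓞 k) : k))
        rw [ev1, ev1, ev1, ev1, gact_one_shift]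
        push_cast
        simp only [map_add, map_mul, map_ofNat]
      have h7 : ev v (em (gact g X (-b + t * X) Y (a + t * Y)) 0) =
          ev v (em (gact g X (-b) Y a) 0) := rfl
      rw [(ev2 v _ _).2.2.2, (ev2 v _ _).2.1, (ev2 v _ _).1, (ev2 v _ _).2.2.2,
        (ev2 v _ _).2.1, e3, h6, h7]
      field_simp
    rw [h5]
    exact ht
  · rw [hsz]
    exact hF
  · rw [hsz]
    exact hT
  · intro v
    rw [hmm]
    exact hv v

/-- Equal forms from two bases, over the field. -/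
lemma form_eq (v : Q4 (𝓞 k)) (x y z w x' y' z' w' : 𝓞 k)
    (h : gact v x y z w = gact v x' y' z' w') (X Y : k) :
    gval (fun j => (v j : k)) ((x : k) * X + (y : k) * Y) ((z : k) * X + (w : k) * Y) =
      gval (fun j => (v j : k)) ((x' : k) * X + (y' : k) * Y) ((z' : k) * X + (w' : k) * Y) := by
  have h1 : gact (fun j => (v j : k)) (x : k) y z w =
      gact (fun j => (v j : k)) (x' : k) y' z' w' := by
    funext i
    have h2 := map_gact (algebraMap (𝓞 k) k) v x y z w i
    have h3 := map_gact (algebraMap (𝓞 k) k) v x' y' z' w' i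
    rw [← h] at h3
    exact h2.symm.trans h3
  rw [gval_gact, gval_gact, h1]

/-- OBG over the integers. -/
lemma orb_int (orb : ObgStmt) (v : Q4 (𝓞 k))
    (hirr : GIrr v) (hsq : ∀ x : k, x ^ 2 ≠ -((mm v : 𝓞 k) : k))
    (x y z w x' y' z' w' : 𝓞 k) (h1 : (x * w - y * z) ^ 2 = 1) (h2 : (x' * w' - y' * z') ^ 2 = 1)
    (h : gact v x y z w = gact v x' y' z' w') :
    x = x' ∧ z = z' ∧ x * w - y * z = x' * w' - y' * z' := by
  have hirr' : GIrr (fun j => (v j : k)) := by
    intro X Y h0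
    obtain ⟨a, d, hd, rfl⟩ := IsFractionRing.div_surjective (A := 𝓞 k) X
    obtain ⟨b, e, he, rfl⟩ := IsFractionRing.div_surjective (A := 𝓞 k) Y
    obtain ⟨a', ha'⟩ : ∃ a' : k, a' = algebraMap (𝓞 k) k a := ⟨_, rfl⟩
    obtain ⟨b', hb'⟩ : ∃ a' : k, a' = algebraMap (𝓞 k) k b := ⟨_, rfl⟩
    obtain ⟨d', hd'⟩ : ∃ a' : k, a' = algebraMap (𝓞 k) k d := ⟨_, rfl⟩
    obtain ⟨e', he'⟩ : ∃ a' : k, a' = algebraMap (𝓞 k) k e := ⟨_, rfl⟩
    have hd0 : d' ≠ 0 := by
      rw [hd']
      exact (map_ne_zero_iff _ (FaithfulSMul.algebraMap_injective (𝓞 k) k)).2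
        (nonZeroDivisors.ne_zero hd)
    have he0 : e' ≠ 0 := by
      rw [he']
      exact (map_ne_zero_iff _ (FaithfulSMul.algebraMap_injective (𝓞 k) k)).2
        (nonZeroDivisors.ne_zero he)
    rw [← ha', ← hb', ← hd', ← he'] at h0 ⊢
    have h3 : gval v (a * e) (b * d) = 0 := by
      apply FaithfulSMul.algebraMap_injective (𝓞 k) k
      rw [map_gval, map_mul, map_mul, map_zero, ← ha', ← hb', ← hd', ← he']
      have h4 : gval (fun j => (v j : k)) (a' * e') (b' * d') =
          (d' * e') ^ 3 * gval (fun j => (v j : k)) (a' / d') (b' / e') := by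
        simp only [gval]
        field_simp
      rw [h0, mul_zero] at h4
      exact h4
    obtain ⟨h5, h6⟩ := hirr _ _ h3
    have h5' : a' * e' = 0 := by rw [ha', he', ← map_mul, h5, map_zero]
    have h6' : b' * d' = 0 := by rw [hb', hd', ← map_mul, h6, map_zero]
    rw [(mul_eq_zero.1 h5').resolve_right he0, (mul_eq_zero.1 h6').resolve_right hd0]
    simp
  have hsq' : ∀ x : k, x ^ 2 ≠ -mm (fun j => (v j : k)) := by
    intro x hx
    apply hsq x
    rw [hx]
    exact congrArg Neg.neg (map_mm (algebraMap (𝓞 k) k) v).symm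
  obtain ⟨h3, h4, h5⟩ := orb k (fun j => (v j : k)) hirr' hsq' (x : k) y z w x' y' z' w' 0
    (by exact_mod_cast congrArg (fun t : 𝓞 k => (t : k)) h1)
    (by exact_mod_cast congrArg (fun t : 𝓞 k => (t : k)) h2)
    (by
      intro X Y
      rw [form_eq v x y z w x' y' z' w' h X Y, zero_mul, add_zero])
  refine ⟨by exact_mod_cast h3, by exact_mod_cast h4, ?_⟩
  apply RingOfIntegers.coe_injective
  exact_mod_cast h5

/-- INJ. -/
theorem inj (obg : ObgStmt) (hka : HkaStmt) (evs : EvsStmt) : InjStmt := by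
  intro k _ _ Φ T η v hirr hsq hfin
  have hm : mm v ≠ 0 := by
    intro h
    apply hsq 0
    rw [h]
    simp
  have hA : ∀ p : Mks Φ T η v, ∃ y w : 𝓞 k, p.1.1 * w - y * p.1.2 = 1 ∧
      gact v p.1.1 y p.1.2 w ∈ Wset Φ T η (mm v) := fun p =>
    mark_form hka evs Φ T η v hirr hm p.1 p.2
  have hB : ∀ p : Mks Φ T η (gmir v), ∃ y w : 𝓞 k, p.1.1 * w - y * p.1.2 = 1 ∧
      gact (gmir v) p.1.1 y p.1.2 w ∈ Wset Φ T η (mm v) := by
    intro p
    obtain ⟨y, w, h1, h2⟩ := mark_form hka evs Φ T η (gmir v) (irr_mir v hirr)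
      (by rw [mm_mir]; exact hm) p.1 p.2
    rw [mm_mir] at h2
    exact ⟨y, w, h1, h2⟩
  choose yA wA hA1 hA2 using hA
  choose yB wB hB1 hB2 using hB
  have hA1' : ∀ p : Mks Φ T η v, (p.1.1 * wA p - yA p * p.1.2) ^ 2 = 1 := fun p => by
    rw [hA1]; exact one_pow _
  have hBd : ∀ p : Mks Φ T η (gmir v), (-p.1.1) * wB p - (-yB p) * p.1.2 = -1 := fun p => by
    have := hB1 p
    linear_combination -this
  have hB1' : ∀ p : Mks Φ T η (gmir v),
      ((-p.1.1) * wB p - (-yB p) * p.1.2) ^ 2 = 1 := fun p => by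
    rw [hBd]; norm_num
  let f : Mks Φ T η v ⊕ Mks Φ T η (gmir v) → Wset Φ T η (mm v) :=
    Sum.elim (fun p => ⟨_, hA2 p⟩) (fun p => ⟨_, hB2 p⟩)
  have hf : Function.Injective f := by
    rintro (p | p) (q | q) h
    · have h1 := congrArg Subtype.val h
      change gact v p.1.1 (yA p) p.1.2 (wA p) = gact v q.1.1 (yA q) q.1.2 (wA q) at h1
      obtain ⟨h2, h3, -⟩ := orb_int obg v hirr hsq _ _ _ _ _ _ _ _ (hA1' p) (hA1' q) h1
      have : p = q := Subtype.ext (Prod.ext h2 h3)
      rw [this]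
    · exfalso
      have h1 := congrArg Subtype.val h
      change gact v p.1.1 (yA p) p.1.2 (wA p) = gact (gmir v) q.1.1 (yB q) q.1.2 (wB q) at h1
      rw [gact_mir] at h1
      obtain ⟨-, -, h2⟩ := orb_int obg v hirr hsq _ _ _ _ _ _ _ _ (hA1' p) (hB1' q) h1
      rw [hA1, hBd] at h2
      have h3 : (2 : 𝓞 k) = 0 := by linear_combination h2
      exact two_ne_zero h3
    · exfalso
      have h1 := congrArg Subtype.val h
      change gact (gmir v) p.1.1 (yB p) p.1.2 (wB p) = gact v q.1.1 (yA q) q.1.2 (wA q) at h1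
      rw [gact_mir] at h1
      obtain ⟨-, -, h2⟩ := orb_int obg v hirr hsq _ _ _ _ _ _ _ _ (hB1' p) (hA1' q) h1
      rw [hA1, hBd] at h2
      have h3 : (2 : 𝓞 k) = 0 := by linear_combination -h2
      exact two_ne_zero h3
    · have h1 := congrArg Subtype.val h
      change gact (gmir v) p.1.1 (yB p) p.1.2 (wB p) =
        gact (gmir v) q.1.1 (yB q) q.1.2 (wB q) at h1
      rw [gact_mir, gact_mir] at h1
      obtain ⟨h2, h3, -⟩ := orb_int obg v hirr hsq _ _ _ _ _ _ _ _ (hB1' p) (hB1' q) h1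
      have : p = q := Subtype.ext (Prod.ext (neg_injective h2) h3)
      rw [this]
  have : Finite (Wset Φ T η (mm v)) := hfin
  have : Finite (Mks Φ T η v ⊕ Mks Φ T η (gmir v)) := Finite.of_injective f hf
  have : Finite (Mks Φ T η v) := Finite.sum_left (Mks Φ T η (gmir v))
  have : Finite (Mks Φ T η (gmir v)) := Finite.sum_right (Mks Φ T η v)
  have h1 := Nat.card_le_card_of_injective f hf
  rw [Nat.card_sum] at h1
  exact h1

end Pool.Agent.LeoC.H69
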